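import Pool.Agent.H503R3.FR.Stmts

/-! Task G4 of H503-FR (helper510): the point has height at least three. -/

set_option autoImplicit false

open MvPolynomial

namespace H503R3.FR.G4

/-- `X 2 ↦ 0` -/
noncomputable def f1 (k : Type) [Field k] : D k →ₐ[k] D k := aeval ![X 0, X 1, 0]

/-- `X 1, X 2 ↦ 0` -/
noncomputable def f2 (k : Type) [Field k] : D k →ₐ[k] D k := aeval ![X 0, 0, 0]

theorem f2_f1 (k : Type) [Field k] : (f2 k).comp (f1 k) = f2 k := by
  apply MvPolynomial.algHom_ext
  intro i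
  fin_cases i <;> simp [f1, f2]

theorem ev_f2 (k : Type) [Field k] (q : k) :
    (aeval (![q, 0, 0] : Fin 3 → k)).comp (f2 k) = aeval ![q, 0, 0] := by
  apply MvPolynomial.algHom_ext
  intro i
  fin_cases i <;> simp [f2]

theorem height_ge (k : Type) [Field k] [CharP k 2] (q : k) :
    3 ≤ (RingHom.ker (evq k q)).height := by
  set I1 : Ideal (R k) := RingHom.ker ((f1 k).comp (R k).val) with hI1
  set I2 : Ideal (R k) := RingHom.ker ((f2 k).comp (R k).val) with hI2
  set I3 : Ideal (R k) := RingHom.ker (evq k q) with hI3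
  have p0 : (⊥ : Ideal (R k)).IsPrime := Ideal.isPrime_bot
  have p1 : I1.IsPrime := RingHom.ker_isPrime _
  have p2 : I2.IsPrime := RingHom.ker_isPrime _
  have p3 : I3.IsPrime := RingHom.ker_isPrime _
  have hv : ∀ i, ((R k).val (r k i) : D k) = gen k i := fun i => rfl
  have l1 : (⊥ : Ideal (R k)) < I1 := by
    rw [bot_lt_iff_ne_bot]
    intro h
    have h1 : r k 3 ∈ I1 := by
      rw [hI1, RingHom.mem_ker, AlgHom.comp_apply, hv]
      simp [gen, f1]
    rw [h, Ideal.mem_bot] at h1
    have h2 := congrArg (fun x : R k => (x : D k)) h1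
    have h3 : gen k 3 = 0 := h2
    simp [gen] at h3
  have l2 : I1 < I2 := by
    refine lt_of_le_of_ne ?_ ?_
    · intro u hu
      rw [hI1, RingHom.mem_ker, AlgHom.comp_apply] at hu
      rw [hI2, RingHom.mem_ker, AlgHom.comp_apply, ← f2_f1, AlgHom.comp_apply, hu, map_zero]
    · intro h
      have h1 : r k 1 ∈ I2 := by
        rw [hI2, RingHom.mem_ker, AlgHom.comp_apply, hv]
        simp [gen, f2]
      rw [← h, hI1, RingHom.mem_ker, AlgHom.comp_apply, hv] at h1
      simp [gen, f1] at h1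
  have l3 : I2 < I3 := by
    refine lt_of_le_of_ne ?_ ?_
    · intro u hu
      rw [hI2, RingHom.mem_ker, AlgHom.comp_apply] at hu
      rw [hI3, RingHom.mem_ker, evq, AlgHom.comp_apply, ← ev_f2, AlgHom.comp_apply, hu, map_zero]
    · intro h
      have h1 : r k 0 - algebraMap k (R k) (q ^ 2) ∈ I3 := by
        rw [hI3, RingHom.mem_ker, map_sub, AlgHom.commutes, evq, AlgHom.comp_apply, hv]
        simp [gen]
      rw [← h, hI2, RingHom.mem_ker, map_sub, AlgHom.commutes, AlgHom.comp_apply, hv] at h1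
      have h2 : f2 k (gen k 0) = X 0 ^ 2 := by simp [gen, f2]
      rw [h2] at h1
      have h3 := congrArg (aeval (![q + 1, 0, 0] : Fin 3 → k)) h1
      rw [map_sub, map_pow, aeval_X, AlgHom.commutes, map_zero] at h3
      simp only [Matrix.cons_val_zero, Algebra.algebraMap_self, RingHom.id_apply] at h3
      have h4 : (2 : k) = 0 := by exact_mod_cast CharP.cast_eq_zero k 2
      have h5 : (q + 1) ^ 2 - q ^ 2 = 2 * q + 1 := by ring
      rw [h5, h4, zero_mul, zero_add] at h3
      exact one_ne_zero h3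
  have h1 := Ideal.height_add_one_le_of_lt_of_isPrime l1
  have h2 := Ideal.height_add_one_le_of_lt_of_isPrime l2
  have h3 := Ideal.height_add_one_le_of_lt_of_isPrime l3
  calc (3 : ℕ∞) = 0 + 1 + 1 + 1 := by norm_num
    _ ≤ (⊥ : Ideal (R k)).height + 1 + 1 + 1 := by gcongr; exact bot_le
    _ ≤ I1.height + 1 + 1 := by gcongr
    _ ≤ I2.height + 1 := by gcongr
    _ ≤ I3.height := h3

theorem taskG4 : TaskG4 := by
  intro k _ _ q
  exact height_ge k q

end H503R3.FR.G4
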